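import Pool.Agent.Lib.helper28.RoeB

set_option autoImplicit false

namespace Pool.Agent.Results.MP_ab5103_an.No

open Filter Topology Set Metric Pool.Agent.H28Roe

/-- `Φ` restricts to an injective star-homomorphism from the uniform Roe algebra of `X` into the
uniform Roe algebra of `Y` (only the values of `Φ` on `Roe X` matter) -/
structure IsEmb {X Y : Type} [MetricSpace X] [MetricSpace Y] (Φ : Op X → Op Y) : Prop where
  maps : ∀ a ∈ Roe X, Φ a ∈ Roe Y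
  map_add : ∀ a ∈ Roe X, ∀ b ∈ Roe X, Φ (a + b) = Φ a + Φ b
  map_smul : ∀ c : ℂ, ∀ a ∈ Roe X, Φ (c • a) = c • Φ a
  map_mul : ∀ a ∈ Roe X, ∀ b ∈ Roe X, Φ (a * b) = Φ a * Φ b
  map_star : ∀ a ∈ Roe X, Φ (star a) = star (Φ a)
  inj : InjOn Φ (Roe X)

/-- `q` is the orthogonal projection onto the line spanned by a unit vector -/
def RankOneProj {X : Type} (q : Op X) : Prop :=
  ∃ v : L2 X, ‖v‖ = 1 ∧ ∀ w, q w = inner ℂ v w • v

/-- rank preserving -/
def RankPres {X Y : Type} [MetricSpace X] (Φ : Op X → Op Y) : Prop :=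
  ∀ q ∈ Roe X, RankOneProj q → RankOneProj (Φ q)

/-- compact preserving -/
def CompactPres {X Y : Type} [MetricSpace X] (Φ : Op X → Op Y) : Prop :=
  ∀ a ∈ Roe X, IsCompactOperator a → IsCompactOperator (Φ a)

/-- `p` is a projection in the uniform Roe algebra of `Y` commuting with the image of `Φ` -/
def CommProj {X Y : Type} [MetricSpace X] [MetricSpace Y] (Φ : Op X → Op Y) (p : Op Y) : Prop :=
  p ∈ Roe Y ∧ p * p = p ∧ star p = p ∧ ∀ a ∈ Roe X, p * Φ a = Φ a * p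

/-- the cut-down map -/
noncomputable def cut {X Y : Type} (Φ : Op X → Op Y) (p : Op Y) : Op X → Op Y :=
  fun a => p * Φ a * p

lemma ee_compact (x : XX) : IsCompactOperator (ee x x) := by
  have h : IsCompactOperator (innerSL ℂ (delta x) : L2 XX →L[ℂ] ℂ) :=
    isCompactOperator_of_locallyCompactSpace_dom _
  exact h.clm_comp (ContinuousLinearMap.toSpanSingleton ℂ (delta x))

theorem result : ∃ (X Y : Type) (_ : MetricSpace X) (_ : MetricSpace Y) (Φ : Op X → Op Y),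
    ULF X ∧ ULF Y ∧ PropA Y ∧ IsEmb Φ ∧
    (¬ ∃ p, CommProj Φ p ∧ IsEmb (cut Φ p) ∧ RankPres (cut Φ p)) ∧
    (¬ ∃ p, CommProj Φ p ∧ IsEmb (cut Φ p) ∧ CompactPres (cut Φ p)) := by
  have key : ∀ p, CommProj Phi p → IsEmb (cut Phi p) →
      (∀ u : ℕ → L2 YY, Orthonormal ℂ u →
        Tendsto (fun i => cut Phi p (ee ⟨0⟩ ⟨0⟩) (u i)) atTop (𝓝 0)) → False := by
    rintro p ⟨h1, h2, -, h4⟩ he h
    have p0 : p = 0 := by
      refine main h1 (fun x x' => h4 _ (ee_Roe x x')) fun g => ?_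
      refine (h _ (WW_on ⟨0⟩ g)).congr fun i => ?_
      have e : cut Phi p (ee ⟨0⟩ ⟨0⟩) = p * Phi (ee ⟨0⟩ ⟨0⟩) := by
        unfold cut
        rw [mul_assoc, ← h4 _ (ee_Roe _ _), ← mul_assoc, h2]
      rw [e]
      exact congrArg p (Phi_ee _ _ _)
    have e : ee ⟨0⟩ ⟨0⟩ = ee ⟨1⟩ ⟨0⟩ := he.inj (ee_Roe _ _) (ee_Roe _ _) (by simp [cut, p0])
    have e2 : ee ⟨0⟩ ⟨0⟩ (delta ⟨0⟩) ⟨0⟩ = ee ⟨1⟩ ⟨0⟩ (delta ⟨0⟩) ⟨0⟩ := by rw [e]
    rw [ee_apply, ee_apply, inner_delta, lp.coeFn_smul, lp.coeFn_smul, Pi.smul_apply,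
      Pi.smul_apply] at e2
    simp [delta_apply] at e2
  refine ⟨XX, YY, inferInstance, inferInstance, Phi, ulf_XX, ulf_YY, propA_of_ultra YY,
    ⟨fun a ha => Phi_Roe ha, ?_, ?_, ?_, ?_, ?_⟩, ?_, ?_⟩
  · intro a _ b _; simp only [Phi, diag_add, map_add]
  · intro c a _; simp only [Phi, diag_smul, map_smul]
  · intro a _ b _; simp only [Phi, diag_mul, map_mul]
  · intro a _; simp only [Phi, diag_star, map_star]
  · intro a _ b _ h
    exact diag_inj (UU.conjStarAlgEquiv.injective h)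
  · rintro ⟨p, h1, h2, h3⟩
    refine key p h1 h2 fun u hu => ?_
    obtain ⟨v, -, hv⟩ := h3 _ (ee_Roe ⟨0⟩ ⟨0⟩) ⟨delta ⟨0⟩, norm_delta _, fun w => rfl⟩
    refine compact_null ?_ hu
    have h : IsCompactOperator (innerSL ℂ v : L2 YY →L[ℂ] ℂ) :=
      isCompactOperator_of_locallyCompactSpace_dom _
    have h' := h.clm_comp (ContinuousLinearMap.toSpanSingleton ℂ v)
    have e : (cut Phi p (ee ⟨0⟩ ⟨0⟩) : L2 YY → L2 YY) =
        ContinuousLinearMap.toSpanSingleton ℂ v ∘ innerSL ℂ v := funext hv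
    rw [e]
    exact h'
  · rintro ⟨p, h1, h2, h3⟩
    exact key p h1 h2 fun u hu => compact_null (h3 _ (ee_Roe _ _) (ee_compact _)) hu

end Pool.Agent.Results.MP_ab5103_an.No
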